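import Pool.Agent.NLC.MFinal

/-!
MP_db258a_co, Q1: plane oriented graphs all of whose directed cycles are clockwise are
2-dicolourable.
-/

namespace Pool.Agent.Results.MP_db258a_co.ClockwiseCycles

open Relation

/-- `A` is the set of arcs.  The two ends of the arc `a` are `(a, true)` (at its tail) and
`(a, false)` (at its head); `otherEnd` exchanges them. -/
def otherEnd {A : Type} : Equiv.Perm (A × Bool) where
  toFun d := (d.1, !d.2)
  invFun d := (d.1, !d.2)
  left_inv d := by simp
  right_inv d := by simp

variable {A : Type}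

/-- Let `σ` (the rotation system) send every arc-end to the next arc-end counterclockwise around its
vertex.  The face permutation walks from the arc-end `d` along the arc to its other end and then turns
to the next arc-end clockwise; the face is on the left. -/
def facePerm (σ : Equiv.Perm (A × Bool)) : Equiv.Perm (A × Bool) := otherEnd.trans σ.symm

/-- the vertices: cycles of `σ` -/
abbrev Vertex (σ : Equiv.Perm (A × Bool)) : Type := Quotient (Equiv.Perm.SameCycle.setoid σ)

/-- the faces: cycles of `facePerm σ` -/
abbrev Face (σ : Equiv.Perm (A × Bool)) : Type :=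
  Quotient (Equiv.Perm.SameCycle.setoid (facePerm σ))

/-- tail of the arc `a` -/
def tail (σ : Equiv.Perm (A × Bool)) (a : A) : Vertex σ := Quotient.mk _ (a, true)

/-- head of the arc `a` -/
def head (σ : Equiv.Perm (A × Bool)) (a : A) : Vertex σ := Quotient.mk _ (a, false)

/-- the face on the left of the arc `a` -/
def left (σ : Equiv.Perm (A × Bool)) (a : A) : Face σ := Quotient.mk _ (a, true)

/-- the face on the right of the arc `a` -/
def right (σ : Equiv.Perm (A × Bool)) (a : A) : Face σ := Quotient.mk _ (a, false)

/-- The digraph is connected and drawn on the sphere (genus zero, by Euler's formula). -/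
def IsPlane [Fintype A] (σ : Equiv.Perm (A × Bool)) : Prop :=
  (∀ x y, ReflTransGen (fun u w => w = σ u ∨ w = otherEnd u) x y) ∧
    Nat.card (Vertex σ) + Nat.card (Face σ) = Fintype.card A + 2

/-- Digirth at least three: no loops (`a = b`) and no directed cycles of length two. -/
def NoShortCycle (σ : Equiv.Perm (A × Bool)) : Prop :=
  ∀ a b, ¬ (tail σ a = head σ b ∧ head σ a = tail σ b)

/-- The arcs `a 0, …, a n` form a directed cycle (with distinct vertices). -/
def IsDicycle (σ : Equiv.Perm (A × Bool)) {n : ℕ} (a : Fin (n + 1) → A) : Prop :=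
  (∀ i, head σ (a i) = tail σ (a (i + 1))) ∧ Function.Injective (fun i => tail σ (a i))

/-- The directed cycle `a` is clockwise with respect to the outer face `s`: there is a set `Y` of
faces (those inside of `a`), not containing `s`, such that the arcs of `a` have their left face
outside and their right face inside, and every other arc has both faces on the same side of `a`. -/
def IsClockwise (σ : Equiv.Perm (A × Bool)) (s : Face σ) {n : ℕ} (a : Fin (n + 1) → A) : Prop :=
  ∃ Y : Set (Face σ), s ∉ Y ∧ ∀ x : A, (x ∈ Set.range a → left σ x ∉ Y ∧ right σ x ∈ Y) ∧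
    (x ∉ Set.range a → (left σ x ∈ Y ↔ right σ x ∈ Y))

/-- no directed cycle is monochromatic -/
def IsDicolouring (σ : Equiv.Perm (A × Bool)) (c : Vertex σ → Bool) : Prop :=
  ∀ (n : ℕ) (a : Fin (n + 1) → A), IsDicycle σ a → ∃ k l, c (tail σ (a k)) ≠ c (tail σ (a l))

theorem result {A : Type} [Fintype A] (σ : Equiv.Perm (A × Bool)) (hp : IsPlane σ)
    (hn : NoShortCycle σ) (s : Face σ)
    (hcw : ∀ (n : ℕ) (a : Fin (n + 1) → A), IsDicycle σ a → IsClockwise σ s a) :
    (∃ e, left σ e = s) ∧ ∀ e, left σ e = s → ∀ i j : Bool, ∃ c : Vertex σ → Bool,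
      IsDicolouring σ c ∧ c (tail σ e) = i ∧ c (head σ e) = j := by
  refine ⟨?_, fun e he i j => NLC.map_ext σ hp.1 hp.2 hn s hcw e he i j⟩
  have hne : Nonempty A := by
    by_contra hA
    have hA' : IsEmpty A := not_nonempty_iff.mp hA
    obtain ⟨d, _⟩ := Quotient.exists_rep s
    exact hA'.false d.1
  obtain ⟨e, _, he⟩ := (NLC.ofMap_rooted σ hp.1 s hcw).exists_l Finset.univ_nonempty
  exact ⟨e, he⟩

end Pool.Agent.Results.MP_db258a_co.ClockwiseCycles
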