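import Pool.Agent.NLC.MReor

/-!
MP_db258a_co, Q1: every orientation of a planar graph can be changed, keeping all outdegrees, to a
2-dicolourable orientation.
-/

namespace Pool.Agent.Results.MP_db258a_co.SameOutdegrees

open Relation

/-- `A` is the set of arcs.  The two ends of the arc `a` are `(a, true)` (at its tail) and
`(a, false)` (at its head); `otherEnd` exchanges them. -/
def otherEnd {A : Type} : Equiv.Perm (A × Bool) where
  toFun d := (d.1, !d.2)
  invFun d := (d.1, !d.2)
  left_inv d := by simp
  right_inv d := by simp

variable {A : Type}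

/-- Let `σ` (the rotation system) send every arc-end to the next arc-end counterclockwise around its
vertex.  The face permutation walks from the arc-end `d` along the arc to its other end and then turns
to the next arc-end clockwise. -/
def facePerm (σ : Equiv.Perm (A × Bool)) : Equiv.Perm (A × Bool) := otherEnd.trans σ.symm

/-- the vertices: cycles of `σ` -/
abbrev Vertex (σ : Equiv.Perm (A × Bool)) : Type := Quotient (Equiv.Perm.SameCycle.setoid σ)

/-- the faces: cycles of `facePerm σ` -/
abbrev Face (σ : Equiv.Perm (A × Bool)) : Type :=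
  Quotient (Equiv.Perm.SameCycle.setoid (facePerm σ))

/-- tail of the arc `a` -/
def tail (σ : Equiv.Perm (A × Bool)) (a : A) : Vertex σ := Quotient.mk _ (a, true)

/-- head of the arc `a` -/
def head (σ : Equiv.Perm (A × Bool)) (a : A) : Vertex σ := Quotient.mk _ (a, false)

/-- The digraph is connected and drawn on the sphere (genus zero, by Euler's formula). -/
def IsPlane [Fintype A] (σ : Equiv.Perm (A × Bool)) : Prop :=
  (∀ x y, ReflTransGen (fun u w => w = σ u ∨ w = otherEnd u) x y) ∧
    Nat.card (Vertex σ) + Nat.card (Face σ) = Fintype.card A + 2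

/-- The underlying graph is simple: no loops, and two different arcs do not have the same two ends. -/
def IsSimple (σ : Equiv.Perm (A × Bool)) : Prop :=
  (∀ a b, ¬ (tail σ a = head σ b ∧ head σ a = tail σ b)) ∧
    ∀ a b, tail σ a = tail σ b → head σ a = head σ b → a = b

open Classical in
/-- tail of `a` after the arcs in `R` have been reversed -/
noncomputable def newTail (σ : Equiv.Perm (A × Bool)) (R : Set A) (a : A) : Vertex σ :=
  if a ∈ R then head σ a else tail σ a

open Classical in
/-- head of `a` after the arcs in `R` have been reversed -/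
noncomputable def newHead (σ : Equiv.Perm (A × Bool)) (R : Set A) (a : A) : Vertex σ :=
  if a ∈ R then tail σ a else head σ a

/-- The arcs `a 0, …, a n` form a directed cycle after the arcs in `R` have been reversed. -/
def IsNewDicycle (σ : Equiv.Perm (A × Bool)) (R : Set A) {n : ℕ} (a : Fin (n + 1) → A) : Prop :=
  (∀ i, newHead σ R (a i) = newTail σ R (a (i + 1))) ∧
    Function.Injective (fun i => newTail σ R (a i))

theorem result {A : Type} [Fintype A] (σ : Equiv.Perm (A × Bool)) (hp : IsPlane σ)
    (hs : IsSimple σ) :
    ∃ R : Set A, (∀ v, {a | newTail σ R a = v}.ncard = {a | tail σ a = v}.ncard) ∧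
      ∃ c : Vertex σ → Bool, ∀ (n : ℕ) (a : Fin (n + 1) → A), IsNewDicycle σ R a →
        ∃ k l, c (newTail σ R (a k)) ≠ c (newTail σ R (a l)) := by
  classical
  obtain ⟨R, h1, c, h2⟩ := NLC.map_reor σ hp.1 hp.2 hs.1 hs.2
  have ht : ∀ a, newTail σ (R : Set A) a = if a ∈ R then NLC.hd σ a else NLC.tl σ a := by
    intro a
    unfold newTail
    by_cases ha : a ∈ R
    · rw [if_pos (show a ∈ (R : Set A) from ha), if_pos ha]; rfl
    · rw [if_neg (show a ∉ (R : Set A) from ha), if_neg ha]; rfl
  have hh : ∀ a, newHead σ (R : Set A) a = if a ∈ R then NLC.tl σ a else NLC.hd σ a := by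
    intro a
    unfold newHead
    by_cases ha : a ∈ R
    · rw [if_pos (show a ∈ (R : Set A) from ha), if_pos ha]; rfl
    · rw [if_neg (show a ∉ (R : Set A) from ha), if_neg ha]; rfl
  refine ⟨(R : Set A), fun v => ?_, c, fun n a ha => ?_⟩
  · have h3 := h1 v
    rw [Set.ncard_eq_toFinset_card', Set.ncard_eq_toFinset_card']
    have e1 : {a | newTail σ (R : Set A) a = v}.toFinset =
        Finset.univ.filter (fun a => (if a ∈ R then NLC.hd σ a else NLC.tl σ a) = v) := by
      ext a
      simp [ht]
    have e2 : {a | tail σ a = v}.toFinset = Finset.univ.filter (fun a => NLC.tl σ a = v) := by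
      ext a
      simp only [Set.mem_toFinset, Set.mem_setOf_eq, Finset.mem_filter, Finset.mem_univ, true_and]
      rfl
    rw [e1, e2]
    convert h3
  · have h4 := h2 n a (fun i => by
      have := ha.1 i
      rw [ht, hh] at this
      convert this) (by
      have := ha.2
      intro x y hxy
      apply this
      simp only [ht]
      convert hxy)
    obtain ⟨k, l, hkl⟩ := h4
    refine ⟨k, l, ?_⟩
    rw [ht, ht]
    convert hkl

end Pool.Agent.Results.MP_db258a_co.SameOutdegrees
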